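import Pool.Agent.MP_ca0a54_nt.H24.Spec

/-!
Row SZ: the size of `zf` in a window, from bounds on its logarithmic derivative.
-/

open Complex MeasureTheory Filter Topology

namespace Pool.Agent.MP_ca0a54_nt.H15

open Pool.Agent.MP_ca0a54_nt.L0 Pool.Agent.MP_ca0a54_nt.H24

/-- A logarithm of the factorized function off the real line. -/
noncomputable def HH (U : Finset ℝ) (h : ℂ → ℂ) (w : ℂ) : ℂ :=
  ∑ u ∈ U, log (w - (u : ℂ)) + h w

/-- Its derivative. -/
noncomputable def ll (U : Finset ℝ) (h : ℂ → ℂ) (w : ℂ) : ℂ :=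
  ∑ u ∈ U, 1 / (w - (u : ℂ)) + deriv h w

/-- A closed box. -/
def bx (t ρ lo hi : ℝ) : Set ℂ := {w | |w.re - t| ≤ ρ ∧ lo ≤ w.im ∧ w.im ≤ hi}

theorem bx_convex (t ρ lo hi : ℝ) : Convex ℝ (bx t ρ lo hi) := by
  have e : bx t ρ lo hi = (reLm ⁻¹' Set.Icc (t - ρ) (t + ρ)) ∩ (imLm ⁻¹' Set.Icc lo hi) := by
    ext w
    simp only [bx, Set.mem_ofPred_eq, Set.mem_inter_iff, Set.mem_preimage, reLm_coe, imLm_coe,
      Set.mem_Icc, abs_le]
    constructor
    · rintro ⟨⟨h1, h2⟩, h3, h4⟩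
      exact ⟨⟨by linarith, by linarith⟩, h3, h4⟩
    · rintro ⟨⟨h1, h2⟩, h3, h4⟩
      exact ⟨⟨by linarith, by linarith⟩, h3, h4⟩
  rw [e]
  exact ((convex_Icc _ _).linear_preimage _).inter ((convex_Icc _ _).linear_preimage _)

theorem norm_sub_le_box (w : ℂ) (t : ℝ) : ‖w - t‖ ≤ |w.re - t| + |w.im| := by
  have := norm_le_abs_re_add_abs_im (w - t)
  simpa using this

theorem sub_ne (w : ℂ) (hw : w.im ≠ 0) (u : ℝ) : w - (u : ℂ) ≠ 0 := by
  intro h0
  have := congrArg Complex.im h0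
  simp at this
  exact hw this

theorem exp_HH (U : Finset ℝ) (h : ℂ → ℂ) (w : ℂ) (hw : w.im ≠ 0) :
    exp (HH U h w) = (∏ u ∈ U, (w - (u : ℂ))) * exp (h w) := by
  rw [HH, Complex.exp_add, Complex.exp_sum]
  congr 1
  exact Finset.prod_congr rfl fun u _ => exp_log (sub_ne w hw u)

theorem hasDerivAt_HH {U : Finset ℝ} {h : ℂ → ℂ} {w : ℂ} (hd : DifferentiableAt ℂ h w)
    (hw : w.im ≠ 0) : HasDerivAt (HH U h) (ll U h w) w := by
  have h1 : HasDerivAt (fun z : ℂ => ∑ u ∈ U, log (z - (u : ℂ)))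
      (∑ u ∈ U, 1 / (w - (u : ℂ))) w := by
    refine HasDerivAt.fun_sum fun u _ => ?_
    refine ((hasDerivAt_id w).sub_const (u : ℂ)).clog ?_
    right
    simpa using hw
  exact h1.add hd.hasDerivAt

theorem norm_sq_sub (w : ℂ) (u : ℝ) : ‖w - (u : ℂ)‖ ^ 2 = (w.re - u) ^ 2 + w.im ^ 2 := by
  rw [Complex.sq_norm, normSq_apply]
  simp
  ring

section core

variable {C T t : ℝ} {U : Finset ℝ} {h : ℂ → ℂ}

theorem diffAt (F : LF C T t U h) {w : ℂ} (hw : w ∈ Metric.ball (t : ℂ) √T) :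
    DifferentiableAt ℂ h w :=
  F.diff.differentiableAt (Metric.isOpen_ball.mem_nhds hw)

theorem zf_eq (F : LF C T t U h) {w : ℂ} (hw : w ∈ Metric.ball (t : ℂ) √T) (hi : w.im ≠ 0) :
    zf w = exp (HH U h w) := by
  rw [exp_HH U h w hi, F.fac w hw]

theorem ld_eq (F : LF C T t U h) {w : ℂ} (hw : w ∈ Metric.ball (t : ℂ) √T) (hi : w.im ≠ 0) :
    ld w = ll U h w := by
  have hev : zf =ᶠ[𝓝 w] fun z => exp (HH U h z) := by
    have h1 : ∀ᶠ z in 𝓝 w, z ∈ Metric.ball (t : ℂ) √T := Metric.isOpen_ball.mem_nhds hw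
    have h2 : ∀ᶠ z in 𝓝 w, z.im ≠ 0 := continuous_im.continuousAt.eventually_ne hi
    filter_upwards [h1, h2] with z hz1 hz2
    exact zf_eq F hz1 hz2
  have hD := (hasDerivAt_HH (U := U) (diffAt F hw) hi).cexp
  rw [ld, hev.deriv_eq, hD.deriv, zf_eq F hw hi]
  field_simp

theorem ll_lip (hS : SepStmt) (F : LF C T t U h) {a s : ℝ} (ha : 0 < a) (has : a ≤ s)
    (hsep : ∀ u ∈ U, ∀ u' ∈ U, u ≠ u' → a ≤ |u - u'|) {w w' : ℂ}
    (hw : w ∈ Metric.ball (t : ℂ) √T) (hw' : w' ∈ Metric.ball (t : ℂ) √T)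
    (hi : w.im ≤ -s) (hi' : w'.im ≤ -s) :
    ‖ll U h w - ll U h w'‖ ≤ (6 / (a * s) + C * Real.log T / T) * ‖w - w'‖ := by
  have hs : 0 < s := lt_of_lt_of_le ha has
  have n1 : w.im ≠ 0 := by linarith
  have n2 : w'.im ≠ 0 := by linarith
  have key : ∀ u ∈ U, ‖1 / (w - (u : ℂ)) - 1 / (w' - (u : ℂ))‖ ≤
      (1 / ((w.re - u) ^ 2 + s ^ 2) + 1 / ((w'.re - u) ^ 2 + s ^ 2)) / 2 * ‖w - w'‖ := by
    intro u _
    have e : 1 / (w - (u : ℂ)) - 1 / (w' - (u : ℂ)) =
        (1 / (w - (u : ℂ))) * (1 / (w' - (u : ℂ))) * (w' - w) := by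
      have := sub_ne w n1 u
      have := sub_ne w' n2 u
      field_simp
      ring
    rw [e, norm_mul, norm_mul, norm_sub_rev w' w]
    refine mul_le_mul_of_nonneg_right ?_ (norm_nonneg _)
    have b : ∀ z : ℂ, z.im ≤ -s → ‖1 / (z - (u : ℂ))‖ ^ 2 ≤ 1 / ((z.re - u) ^ 2 + s ^ 2) := by
      intro z hz
      rw [norm_div, norm_one, div_pow, one_pow, norm_sq_sub]
      refine one_div_le_one_div_of_le (by positivity) ?_
      nlinarith
    have b1 := b w hi
    have b2 := b w' hi'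
    nlinarith [sq_nonneg (‖1 / (w - (u : ℂ))‖ - ‖1 / (w' - (u : ℂ))‖)]
  have s1 := hS U a s w.re ha has hsep
  have s2 := hS U a s w'.re ha has hsep
  have e : ll U h w - ll U h w' = ∑ u ∈ U, (1 / (w - (u : ℂ)) - 1 / (w' - (u : ℂ))) +
      (deriv h w - deriv h w') := by
    rw [Finset.sum_sub_distrib, ll, ll]
    ring
  rw [e, add_mul]
  refine (norm_add_le _ _).trans (add_le_add ?_ (F.d2 w hw w' hw'))
  refine (norm_sum_le _ _).trans ((Finset.sum_le_sum key).trans ?_)
  rw [← Finset.sum_mul]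
  refine mul_le_mul_of_nonneg_right ?_ (norm_nonneg _)
  rw [← Finset.sum_div, Finset.sum_add_distrib]
  linarith

theorem ll_contAt (F : LF C T t U h) {w : ℂ} (hw : w ∈ Metric.ball (t : ℂ) √T) (hi : w.im ≠ 0) :
    ContinuousAt (ll U h) w := by
  have h1 : ContinuousAt (deriv h) w :=
    ((F.diff.deriv Metric.isOpen_ball).differentiableAt
      (Metric.isOpen_ball.mem_nhds hw)).continuousAt
  have h2 : ContinuousAt (fun z : ℂ => ∑ u ∈ U, 1 / (z - (u : ℂ))) w := by
    refine tendsto_finsetSum _ fun u _ => ?_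
    exact continuousAt_const.div (continuousAt_id.sub continuousAt_const) (sub_ne w hi u)
  exact h2.add h1

/-- The numerical smallness conditions. -/
structure Sm (C T K A a : ℝ) : Prop where
  hC : 1 ≤ C
  hK : 1 ≤ K
  hA : 1 ≤ A
  a0 : 0 < a
  aL : a * Real.log T ≤ 4
  sm : (K + A) * a * C ≤ 1 / 2
  k0 : 0 ≤ C * Real.log T / T
  k1 : C * Real.log T / T ≤ 1 / 2
  L0 : 0 ≤ Real.log T
  hT : 1 < √T

variable {K A a : ℝ}

theorem Sm.sm' (P : Sm C T K A a) : (K + A) * a ≤ 1 / 2 := by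
  have := P.hC; have := P.hK; have := P.hA; have := P.a0; have := P.sm
  have : 0 ≤ (K + A) * a := by positivity
  nlinarith

theorem Sm.mem (P : Sm C T K A a) {w : ℂ} (h1 : |w.re - t| ≤ K * a) (h2 : |w.im| ≤ A * a) :
    w ∈ Metric.ball (t : ℂ) √T := by
  rw [Metric.mem_ball, dist_eq_norm]
  have := norm_sub_le_box w t
  have := P.sm'
  have := P.hT
  linarith

theorem Sm.aA (P : Sm C T K A a) : a ≤ A * a := by
  have := P.hA; have := P.a0
  nlinarith

/-- Horizontal move at height `-A a`. -/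
theorem horiz (hS : SepStmt) (F : LF C T t U h) (P : Sm C T K A a)
    (hsep : ∀ u ∈ U, ∀ u' ∈ U, u ≠ u' → a ≤ |u - u'|) {σ : ℝ}
    (hσ : a * ‖ld (t - (A * a : ℝ) * I)‖ ≤ σ) {k x : ℝ} (hk0 : 0 ≤ k) (hk : k ≤ K)
    (hx : |x - t| ≤ k * a) :
    ‖HH U h (x - (A * a : ℝ) * I) - HH U h (t - (A * a : ℝ) * I)‖ ≤ k * σ + 7 * k ^ 2 / A := by
  have a0 := P.a0
  have hA := P.hA
  have hK := P.hK
  have aA := P.aA
  have hka : k * a ≤ K * a := by gcongr
  have hmem : ∀ w ∈ bx t (k * a) (-(A * a)) (-(A * a)), w ∈ Metric.ball (t : ℂ) √T := by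
    intro w hw
    refine P.mem (hw.1.trans hka) ?_
    rw [abs_le]
    exact ⟨hw.2.1, by linarith [hw.2.2]⟩
  have ht : (t : ℂ) - (A * a : ℝ) * I ∈ bx t (k * a) (-(A * a)) (-(A * a)) := by
    refine ⟨?_, ?_, ?_⟩ <;> simp
    positivity
  have hx' : (x : ℂ) - (A * a : ℝ) * I ∈ bx t (k * a) (-(A * a)) (-(A * a)) := by
    refine ⟨?_, ?_, ?_⟩ <;> simp
    exact hx
  have hld : ld (t - (A * a : ℝ) * I) = ll U h (t - (A * a : ℝ) * I) :=
    ld_eq F (hmem _ ht) (by linarith [ht.2.2])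
  have hb : ∀ w ∈ bx t (k * a) (-(A * a)) (-(A * a)), ‖ll U h w‖ ≤
      ‖ld (t - (A * a : ℝ) * I)‖ + (6 / (a * (A * a)) + C * Real.log T / T) * (k * a) := by
    intro w hw
    have h1 := ll_lip hS F a0 aA hsep (hmem w hw) (hmem _ ht) hw.2.2 ht.2.2
    have h2 : ‖w - (t - (A * a : ℝ) * I)‖ ≤ k * a := by
      have h3 := norm_le_abs_re_add_abs_im (w - (t - (A * a : ℝ) * I))
      have h4 : (w - (t - (A * a : ℝ) * I)).re = w.re - t := by simp
      have h5 : (w - (t - (A * a : ℝ) * I)).im = 0 := by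
        have := hw.2.1; have := hw.2.2
        simp
        linarith
      rw [h4, h5, abs_zero, add_zero] at h3
      exact h3.trans hw.1
    have h6 : 0 ≤ 6 / (a * (A * a)) + C * Real.log T / T := by
      have := P.k0
      positivity
    have h7 := norm_sub_norm_le (ll U h w) (ll U h (t - (A * a : ℝ) * I))
    have h8 := mul_le_mul_of_nonneg_left h2 h6
    rw [hld]
    linarith
  have hm := (bx_convex t (k * a) (-(A * a)) (-(A * a))).norm_image_sub_le_of_norm_hasDerivWithin_le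
    (f := HH U h) (f' := ll U h)
    (fun w hw => (hasDerivAt_HH (diffAt F (hmem w hw))
      (by linarith [hw.2.2])).hasDerivWithinAt) hb ht hx'
  have e : ‖(x : ℂ) - (A * a : ℝ) * I - (t - (A * a : ℝ) * I)‖ = |x - t| := by
    have : (x : ℂ) - (A * a : ℝ) * I - (t - (A * a : ℝ) * I) = ((x - t : ℝ) : ℂ) := by
      push_cast; ring
    rw [this, norm_real, Real.norm_eq_abs]
  rw [e] at hm
  refine hm.trans ?_
  have k0 := P.k0
  have k1 := P.k1
  have sm := P.sm'
  have hn := norm_nonneg (ld (t - (A * a : ℝ) * I))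
  calc _ ≤ (‖ld (t - (A * a : ℝ) * I)‖ + (6 / (a * (A * a)) + C * Real.log T / T) * (k * a)) *
        (k * a) := by gcongr
    _ = k * (a * ‖ld (t - (A * a : ℝ) * I)‖) +
        (6 + (A * a) * a * (C * Real.log T / T)) * k ^ 2 / A := by
      field_simp
    _ ≤ k * σ + 7 * k ^ 2 / A := by
      have h1 : A * a ≤ 1 := by nlinarith
      have h2 : a ≤ 1 := by linarith
      have h3 : A * a * a * (C * Real.log T / T) ≤ 1 * 1 * (1 / 2) := by gcongr
      gcongr
      linarith

/-- Vertical move between heights `-A a` and `-s`, `a ≤ s`. -/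
theorem vert (hS : SepStmt) (F : LF C T t U h) (P : Sm C T K A a)
    (hsep : ∀ u ∈ U, ∀ u' ∈ U, u ≠ u' → a ≤ |u - u'|) {Λ : ℝ} (hΛ : 0 ≤ Λ)
    (hI : ∫⁻ s in Set.Icc a (A * a), ‖ld (t - s * I)‖ₑ ≤ ENNReal.ofReal Λ) {x s : ℝ}
    (hx : |x - t| ≤ K * a) (hs : a ≤ s) (hs' : s ≤ A * a) :
    ‖HH U h (x - (A * a : ℝ) * I) - HH U h (x - s * I)‖ ≤ Λ + 6 * K * Real.log A + 1 := by
  have a0 := P.a0
  have hA := P.hA
  have hK := P.hK
  have aA := P.aA
  have k0 := P.k0
  have k1 := P.k1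
  have sm := P.sm'
  have hmem : ∀ y : ℝ, |y - t| ≤ K * a → ∀ r ∈ Set.Icc a (A * a),
      (y : ℂ) - r * I ∈ Metric.ball (t : ℂ) √T := by
    intro y hy r hr
    refine P.mem (by simpa using hy) ?_
    simp only [sub_im, ofReal_im, mul_im, ofReal_re, I_im, mul_one, I_re, mul_zero, add_zero,
      zero_sub, abs_neg]
    rw [abs_le]
    exact ⟨by linarith [hr.1], hr.2⟩
  have him : ∀ y r : ℝ, ((y : ℂ) - r * I).im = -r := by intro y r; simp
  have htt : |t - t| ≤ K * a := by simp; positivity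
  have hcont : ContinuousOn (fun r : ℝ => ld (t - r * I)) (Set.Icc a (A * a)) := by
    have : ContinuousOn (fun r : ℝ => ll U h (t - r * I)) (Set.Icc a (A * a)) := by
      intro r hr
      refine ContinuousAt.continuousWithinAt ?_
      refine ContinuousAt.comp (g := ll U h) (f := fun r : ℝ => (t : ℂ) - r * I)
        (ll_contAt F (hmem t htt r hr) (by rw [him]; linarith [hr.1])) (by fun_prop)
    refine this.congr fun r hr => ?_
    exact ld_eq F (hmem t htt r hr) (by rw [him]; linarith [hr.1])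
  have hint : IntegrableOn (fun r : ℝ => ld (t - r * I)) (Set.Icc a (A * a)) :=
    hcont.integrableOn_Icc
  have hΛ' : ∫ r in a..(A * a), ‖ld (t - r * I)‖ ≤ Λ := by
    rw [intervalIntegral.integral_of_le aA, ← integral_Icc_eq_integral_Ioc,
      ← ENNReal.ofReal_le_ofReal_iff hΛ, ofReal_integral_norm_eq_lintegral_enorm hint]
    exact hI
  set B : ℝ → ℝ := fun r => ‖ld (t - r * I)‖ + (6 * K * (1 / r) + C * Real.log T / T * (K * a))
    with hB
  have hc1 : ContinuousOn (fun r : ℝ => 1 / r) (Set.Icc a (A * a)) :=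
    continuousOn_const.div continuousOn_id fun r hr => by
      have := hr.1
      exact ne_of_gt (by linarith)
  have hBc : ContinuousOn B (Set.Icc a (A * a)) :=
    hcont.norm.add ((continuousOn_const.mul hc1).add continuousOn_const)
  have hsub : Set.Icc s (A * a) ⊆ Set.Icc a (A * a) := Set.Icc_subset_Icc_left hs
  have hD : ∀ r ∈ Set.Icc a (A * a), HasDerivAt (fun r : ℝ => HH U h (x - r * I))
      (ll U h (x - r * I) * (-I)) r := by
    intro r hr
    have h1 : HasDerivAt (fun z : ℂ => (x : ℂ) - z * I) (-I) (r : ℂ) := by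
      simpa using ((hasDerivAt_id (r : ℂ)).mul_const I).const_sub (x : ℂ)
    have h2 := (hasDerivAt_HH (U := U) (diffAt F (hmem x hx r hr))
      (by rw [him]; linarith [hr.1])).comp (r : ℂ) h1
    exact h2.comp_ofReal
  have hm := norm_sub_le_integral_of_norm_deriv_le_of_le
    (f := fun r : ℝ => HH U h (x - r * I)) (B := B) hs'
    (fun r hr => (hD r (hsub hr)).continuousAt.continuousWithinAt)
    (fun r hr => (hD r (hsub (Set.Ioo_subset_Icc_self hr))).differentiableAt.differentiableWithinAt)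
    (Eventually.of_forall fun r hr => by
      have hr' := hsub (Set.Ioo_subset_Icc_self hr)
      have r0 : 0 < r := by linarith [hr'.1]
      rw [(hD r hr').deriv, norm_mul, norm_neg, norm_I, mul_one]
      have h1 := ll_lip hS F a0 hr'.1 hsep (hmem x hx r hr') (hmem t htt r hr')
        (by rw [him]) (by rw [him])
      have h2 : ‖(x : ℂ) - r * I - (t - r * I)‖ ≤ K * a := by
        have : (x : ℂ) - r * I - (t - r * I) = ((x - t : ℝ) : ℂ) := by
          push_cast; ring
        rw [this, norm_real, Real.norm_eq_abs]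
        exact hx
      have h6 : 0 ≤ 6 / (a * r) + C * Real.log T / T := by positivity
      have h7 := norm_sub_norm_le (ll U h (x - r * I)) (ll U h (t - r * I))
      have h8 := mul_le_mul_of_nonneg_left h2 h6
      have h9 : (6 / (a * r) + C * Real.log T / T) * (K * a) =
          6 * K * (1 / r) + C * Real.log T / T * (K * a) := by
        field_simp
      simp only [hB]
      rw [ld_eq F (hmem t htt r hr') (by rw [him]; linarith)]
      linarith)
    ((hBc.mono hsub).intervalIntegrable_of_Icc hs')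
  refine hm.trans ?_
  have hmono : ∫ r in s..(A * a), B r ≤ ∫ r in a..(A * a), B r := by
    refine intervalIntegral.integral_mono_interval hs hs' le_rfl ?_
      (hBc.intervalIntegrable_of_Icc aA)
    rw [EventuallyLE, ae_restrict_iff' measurableSet_Ioc]
    refine Eventually.of_forall fun r hr => ?_
    have r0 : 0 < r := by linarith [hr.1]
    simp only [hB, Pi.zero_apply]
    positivity
  refine hmono.trans ?_
  have i1 : IntervalIntegrable (fun r : ℝ => ‖ld (t - r * I)‖) volume a (A * a) :=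
    hcont.norm.intervalIntegrable_of_Icc aA
  have i2 : IntervalIntegrable (fun r : ℝ => 6 * K * (1 / r)) volume a (A * a) :=
    (continuousOn_const.mul hc1).intervalIntegrable_of_Icc aA
  have i3 : IntervalIntegrable (fun _ : ℝ => C * Real.log T / T * (K * a)) volume a (A * a) :=
    intervalIntegrable_const
  simp only [hB]
  rw [intervalIntegral.integral_add i1 (i2.add i3), intervalIntegral.integral_add i2 i3,
    intervalIntegral.integral_const_mul, integral_one_div_of_pos a0 (by linarith),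
    intervalIntegral.integral_const, smul_eq_mul, mul_div_assoc A a a, div_self a0.ne', mul_one]
  have h1 : A * a - a ≤ 1 := by nlinarith
  have h2 : K * a ≤ 1 := by nlinarith
  have h3 : (A * a - a) * (C * Real.log T / T * (K * a)) ≤ 1 * (1 / 2 * 1) := by
    have : 0 ≤ A * a - a := by linarith
    gcongr
  linarith

theorem norm_prod_mono (U : Finset ℝ) {w w' : ℂ} (h1 : w.re = w'.re) (h2 : |w.im| ≤ |w'.im|) :
    ‖∏ u ∈ U, (w - (u : ℂ))‖ ≤ ‖∏ u ∈ U, (w' - (u : ℂ))‖ := by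
  rw [norm_prod, norm_prod]
  refine Finset.prod_le_prod (fun _ _ => norm_nonneg _) fun u _ => ?_
  refine (pow_le_pow_iff_left₀ (norm_nonneg _) (norm_nonneg _) two_ne_zero).1 ?_
  rw [norm_sq_sub, norm_sq_sub, h1]
  have := sq_le_sq.2 h2
  linarith

theorem norm_zf_le (F : LF C T t U h) {w w' : ℂ} (hw : w ∈ Metric.ball (t : ℂ) √T)
    (hw' : w' ∈ Metric.ball (t : ℂ) √T) (h1 : w.re = w'.re) (h2 : |w.im| ≤ |w'.im|) {E : ℝ}
    (hE : (h w - h w').re ≤ E) : ‖zf w‖ ≤ Real.exp E * ‖zf w'‖ := by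
  rw [F.fac w hw, F.fac w' hw', norm_mul, norm_mul, norm_exp, norm_exp]
  have h3 := norm_prod_mono U h1 h2
  have h4 : Real.exp (h w).re ≤ Real.exp E * Real.exp (h w').re := by
    rw [← Real.exp_add]
    refine Real.exp_le_exp.2 ?_
    rw [sub_re] at hE
    linarith
  calc _ ≤ ‖∏ u ∈ U, (w' - (u : ℂ))‖ * (Real.exp E * Real.exp (h w').re) := by gcongr
    _ = _ := by ring

theorem bx_mem (P : Sm C T K A a) {w : ℂ} (hw : w ∈ bx t (K * a) (-(A * a)) (A * a)) :
    w ∈ Metric.ball (t : ℂ) √T :=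
  P.mem hw.1 (abs_le.2 hw.2)

/-- The strip between height `-a` and the real line. -/
theorem near (F : LF C T t U h) (P : Sm C T K A a) {x s : ℝ}
    (hx : |x - t| ≤ K * a) (hs : 0 ≤ s) (hs' : s ≤ a) :
    ‖zf (x - s * I)‖ ≤ Real.exp (4 * C) * ‖zf (x - a * I)‖ := by
  have a0 := P.a0
  have aA := P.aA
  have hC := P.hC
  have m1 : (x : ℂ) - s * I ∈ bx t (K * a) (-(A * a)) (A * a) := by
    refine ⟨?_, ?_, ?_⟩ <;> simp <;> first | exact hx | linarith
  have m2 : (x : ℂ) - a * I ∈ bx t (K * a) (-(A * a)) (A * a) := by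
    refine ⟨?_, ?_, ?_⟩ <;> simp <;> first | exact hx | linarith
  refine norm_zf_le F (bx_mem P m1) (bx_mem P m2) (by simp) ?_ ?_
  · simp only [sub_im, ofReal_im, mul_im, ofReal_re, I_im, mul_one, I_re, mul_zero, add_zero,
      zero_sub, abs_neg]
    rw [abs_of_nonneg hs, abs_of_pos a0]
    exact hs'
  · have hm := (bx_convex t (K * a) (-(A * a)) (A * a)).norm_image_sub_le_of_norm_hasDerivWithin_le
      (f := h) (f' := deriv h)
      (fun w hw => (diffAt F (bx_mem P hw)).hasDerivAt.hasDerivWithinAt)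
      (fun w hw => F.d1 w (bx_mem P hw)) m2 m1
    have e : ‖(x : ℂ) - s * I - (x - a * I)‖ ≤ a := by
      have : (x : ℂ) - s * I - (x - a * I) = ((a - s : ℝ) : ℂ) * I := by
        push_cast; ring
      rw [this, norm_mul, norm_I, mul_one, norm_real, Real.norm_eq_abs, abs_le]
      constructor <;> linarith
    have L0 := P.L0
    have aL := P.aL
    have h2 : C * Real.log T * ‖(x : ℂ) - s * I - (x - a * I)‖ ≤ C * Real.log T * a := by gcongr
    have h3 : C * (a * Real.log T) ≤ C * 4 := by gcongr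
    have h4 := re_le_norm (h (x - s * I) - h (x - a * I))
    linarith

/-- Reflection in the real line. -/
theorem refl (F : LF C T t U h) (P : Sm C T K A a) {x s : ℝ}
    (hx : |x - t| ≤ K * a) (hs : 0 ≤ s) (hs' : s ≤ A * a) :
    ‖zf (x + s * I)‖ ≤ Real.exp (Real.log T * s + 2) * ‖zf (x - s * I)‖ := by
  have a0 := P.a0
  have aA := P.aA
  have hC := P.hC
  have hK := P.hK
  have hA := P.hA
  have k0 := P.k0
  have k1 := P.k1
  have sm := P.sm
  have sm' := P.sm'
  have m1 : (x : ℂ) + s * I ∈ bx t (K * a) (-(A * a)) (A * a) := by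
    refine ⟨?_, ?_, ?_⟩ <;> simp <;> first | exact hx | linarith
  have m2 : (x : ℂ) - s * I ∈ bx t (K * a) (-(A * a)) (A * a) := by
    refine ⟨?_, ?_, ?_⟩ <;> simp <;> first | exact hx | linarith
  have m0 : (t : ℂ) ∈ Metric.ball (t : ℂ) √T := Metric.mem_ball_self (by linarith [P.hT])
  refine norm_zf_le F (bx_mem P m1) (bx_mem P m2) (by simp) (by simp) ?_
  have hm := (bx_convex t (K * a) (-(A * a)) (A * a)).norm_image_sub_le_of_norm_hasDerivWithin_le
    (f := fun w => h w - deriv h t * w) (f' := fun w => deriv h w - deriv h t) (C := 1 / 4)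
    (fun w hw => by
      have := (diffAt F (bx_mem P hw)).hasDerivAt.sub ((hasDerivAt_id w).const_mul (deriv h t))
      rw [mul_one] at this
      exact this.hasDerivWithinAt)
    (fun w hw => by
      have h1 := F.d2 w (bx_mem P hw) t m0
      have h2 := norm_sub_le_box w t
      have h3 := hw.1
      have h4 := abs_le.2 hw.2
      have h5 : C * Real.log T / T * ‖w - t‖ ≤ 1 / 2 * (1 / 2) := by
        gcongr
        linarith
      linarith) m2 m1
  have e : ‖(x : ℂ) + s * I - (x - s * I)‖ = 2 * s := by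
    have : (x : ℂ) + s * I - (x - s * I) = ((2 * s : ℝ) : ℂ) * I := by
      push_cast; ring
    rw [this, norm_mul, norm_I, mul_one, norm_real, Real.norm_eq_abs, abs_of_nonneg (by linarith)]
  rw [e] at hm
  have h4 := (re_le_norm _).trans hm
  have h5 : (h (x + s * I) - deriv h t * (x + s * I) -
      (h (x - s * I) - deriv h t * (x - s * I))).re =
      (h (x + s * I) - h (x - s * I)).re + 2 * s * (deriv h t).im := by
    simp
    ring
  rw [h5] at h4
  have h6 := (abs_le.1 F.ph).1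
  have h7 : s * (-C) ≤ s * ((deriv h t).im + Real.log T / 2) := by gcongr
  have h8 : s * C ≤ A * a * C := by gcongr
  have h9 : 0 ≤ K * a * C := by positivity
  have h10 : 0 ≤ K * a := by positivity
  nlinarith

theorem norm_zf_le_of_HH (F : LF C T t U h) {w w' : ℂ} (hw : w ∈ Metric.ball (t : ℂ) √T)
    (hw' : w' ∈ Metric.ball (t : ℂ) √T) (hi : w.im ≠ 0) (hi' : w'.im ≠ 0) {E : ℝ}
    (hE : ‖HH U h w - HH U h w'‖ ≤ E) : ‖zf w‖ ≤ Real.exp E * ‖zf w'‖ := by
  rw [zf_eq F hw hi, zf_eq F hw' hi', norm_exp, norm_exp, ← Real.exp_add]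
  refine Real.exp_le_exp.2 ?_
  have := re_le_norm (HH U h w - HH U h w')
  rw [sub_re] at this
  linarith

/-- The lower half of the window. -/
theorem lower (hS : SepStmt) (F : LF C T t U h) (P : Sm C T K A a)
    (hsep : ∀ u ∈ U, ∀ u' ∈ U, u ≠ u' → a ≤ |u - u'|) {Λ σ : ℝ} (hΛ : 0 ≤ Λ)
    (hI : ∫⁻ s in Set.Icc a (A * a), ‖ld (t - s * I)‖ₑ ≤ ENNReal.ofReal Λ)
    (hσ : a * ‖ld (t - (A * a : ℝ) * I)‖ ≤ σ) {x s : ℝ}
    (hx : |x - t| ≤ K * a) (hs : 0 ≤ s) (hs' : s ≤ A * a) :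
    ‖zf (x - s * I)‖ ≤ Real.exp (Λ + K * σ + 7 * K ^ 2 + 6 * K * Real.log A + 1 + 4 * C) *
      ‖zf (t - (A * a : ℝ) * I)‖ := by
  have a0 := P.a0
  have aA := P.aA
  have hC := P.hC
  have hK := P.hK
  have hA := P.hA
  have him : ∀ y r : ℝ, ((y : ℂ) - r * I).im = -r := by intro y r; simp
  have hre : ∀ y r : ℝ, ((y : ℂ) - r * I).re = y := by intro y r; simp
  have main : ∀ r : ℝ, a ≤ r → r ≤ A * a → ‖zf (x - r * I)‖ ≤
      Real.exp (Λ + K * σ + 7 * K ^ 2 + 6 * K * Real.log A + 1) *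
        ‖zf (t - (A * a : ℝ) * I)‖ := by
    intro r hr hr'
    refine norm_zf_le_of_HH F (P.mem (by rw [hre]; exact hx) ?_) (P.mem ?_ ?_)
      (by rw [him]; linarith) (by rw [him]; linarith) ?_
    · rw [him, abs_neg, abs_of_nonneg (by linarith)]; exact hr'
    · rw [hre, sub_self, abs_zero]; positivity
    · rw [him, abs_neg, abs_of_nonneg (by linarith)]
    · have h1 := horiz hS F P hsep hσ (by linarith) le_rfl hx
      have h2 := vert hS F P hsep hΛ hI hx hr hr'
      rw [norm_sub_rev] at h2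
      have h3 := norm_sub_le_norm_sub_add_norm_sub (HH U h (x - r * I))
        (HH U h (x - (A * a : ℝ) * I)) (HH U h (t - (A * a : ℝ) * I))
      have h4 : 7 * K ^ 2 / A ≤ 7 * K ^ 2 := div_le_self (by positivity) hA
      linarith
  rcases le_total a s with h1 | h1
  · exact (main s h1 hs').trans
      (mul_le_mul_of_nonneg_right (Real.exp_le_exp.2 (by linarith)) (norm_nonneg _))
  · refine (near F P hx hs h1).trans ?_
    have := main a le_rfl aA
    calc _ ≤ Real.exp (4 * C) * (Real.exp (Λ + K * σ + 7 * K ^ 2 + 6 * K * Real.log A + 1) *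
          ‖zf (t - (A * a : ℝ) * I)‖) := by gcongr
      _ = _ := by
        rw [← mul_assoc, ← Real.exp_add]
        congr 2
        ring

theorem norm_exp_sub_one (z : ℂ) : ‖exp z - 1‖ ≤ Real.exp ‖z‖ - 1 := by
  simpa using norm_exp_sub_sum_le_exp_norm_sub_sum z 1

end core

theorem ev_small (C K A : ℝ) (hC : 1 ≤ C) (hK : 1 ≤ K) (hA : 1 ≤ A) :
    ∀ᶠ T : ℝ in atTop, ∀ a : ℝ, 1 / Real.log T ≤ a → a ≤ 4 / Real.log T → Sm C T K A a := by
  have e1 : ∀ᶠ T : ℝ in atTop, 8 * (K + A) * C ≤ Real.log T :=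
    Real.tendsto_log_atTop.eventually_ge_atTop _
  have e2 : ∀ᶠ T : ℝ in atTop, ‖Real.log T‖ ≤ 1 / (2 * C) * ‖id T‖ :=
    Real.isLittleO_log_id_atTop.bound (by positivity)
  filter_upwards [e1, e2, eventually_gt_atTop (1 : ℝ)] with T h1 h2 h3 a ha ha'
  have L0 : 0 < Real.log T := Real.log_pos h3
  have a0 : 0 < a := lt_of_lt_of_le (by positivity) ha
  have aL : a * Real.log T ≤ 4 := (le_div_iff₀ L0).1 ha'
  have T0 : 0 < T := by linarith
  refine ⟨hC, hK, hA, a0, aL, ?_, by positivity, ?_, L0.le, ?_⟩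
  · have : a * (8 * (K + A) * C) ≤ a * Real.log T := by gcongr
    nlinarith
  · rw [Real.norm_eq_abs, Real.norm_eq_abs, id, abs_of_pos L0, abs_of_pos T0] at h2
    rw [div_le_iff₀ T0]
    calc C * Real.log T ≤ C * (1 / (2 * C) * T) := by gcongr
      _ = 1 / 2 * T := by field_simp
  · exact Real.lt_sqrt_of_sq_lt (by linarith)

theorem sz : SepStmt → SzStmt := by
  intro hS C hC
  refine ⟨4 * C + 10, by linarith, fun K A hK hA => ?_⟩
  filter_upwards [ev_small C K A hC hK hA] with T hT a δ t Λ σ U h ha ha' hδ hU F hΛ hI hσ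
  have P := hT a ha ha'
  have a0 := P.a0
  have aA := P.aA
  have hsep : ∀ u ∈ U, ∀ u' ∈ U, u ≠ u' → a ≤ |u - u'| := fun u hu u' hu' hne =>
    hδ.le.trans (hU.sep u hu u' hu' hne)
  have him : ∀ y r : ℝ, ((y : ℂ) - r * I).im = -r := by intro y r; simp
  have hre : ∀ y r : ℝ, ((y : ℂ) - r * I).re = y := by intro y r; simp
  have hmem : ∀ y : ℝ, |y - t| ≤ K * a → (y : ℂ) - (A * a : ℝ) * I ∈ Metric.ball (t : ℂ) √T := by
    intro y hy
    refine P.mem (by rw [hre]; exact hy) ?_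
    rw [him, abs_neg, abs_of_nonneg (by linarith)]
  have hne : ∀ y : ℝ, ((y : ℂ) - (A * a : ℝ) * I).im ≠ 0 := by
    intro y
    rw [him]; linarith
  have htt : |t - t| ≤ K * a := by rw [sub_self, abs_zero]; positivity
  have lA : 0 ≤ Real.log A := Real.log_nonneg hA
  have hexp : Λ + K * σ + 7 * K ^ 2 + 6 * K * Real.log A + 1 + 4 * C + 2 ≤
      Λ + K * σ + (4 * C + 10) * K ^ 2 * (1 + Real.log A) := by
    have h1 : 1 ≤ K ^ 2 := one_le_pow₀ hK
    have h2 : K ≤ K ^ 2 := by nlinarith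
    have h3 : K * Real.log A ≤ K ^ 2 * Real.log A := by gcongr
    have h4 : C * 1 ≤ C * K ^ 2 := by gcongr
    have h5 : 0 ≤ C * (K ^ 2 * Real.log A) := by positivity
    have h6 : 0 ≤ K ^ 2 * Real.log A := by positivity
    nlinarith
  refine ⟨?_, ?_, ?_⟩
  · rw [zf_eq F (hmem t htt) (hne t)]
    exact exp_ne_zero _
  · intro w h1 h2
    have h3 := abs_le.1 h2
    rcases le_total w.im 0 with hw | hw
    · have e : w = (w.re : ℂ) - (-w.im : ℝ) * I := by
        apply Complex.ext <;> simp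
      have := lower hS F P hsep hΛ hI hσ h1 (s := -w.im) (by linarith) (by linarith)
      rw [← e] at this
      rw [max_eq_right hw, mul_zero, Real.exp_zero, mul_one]
      exact this.trans
        (mul_le_mul_of_nonneg_right (Real.exp_le_exp.2 (by linarith)) (norm_nonneg _))
    · have e : w = (w.re : ℂ) + (w.im : ℝ) * I := (re_add_im w).symm
      have h4 := lower hS F P hsep hΛ hI hσ h1 hw h3.2
      have h5 := refl F P h1 hw h3.2
      rw [← e] at h5
      rw [max_eq_left hw]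
      calc _ ≤ Real.exp (Real.log T * w.im + 2) *
            (Real.exp (Λ + K * σ + 7 * K ^ 2 + 6 * K * Real.log A + 1 + 4 * C) *
              ‖zf (t - (A * a : ℝ) * I)‖) := h5.trans (by gcongr)
        _ = Real.exp (Λ + K * σ + 7 * K ^ 2 + 6 * K * Real.log A + 1 + 4 * C + 2) *
              ‖zf (t - (A * a : ℝ) * I)‖ * Real.exp (Real.log T * w.im) := by
          simp only [Real.exp_add]
          ring
        _ ≤ _ := by gcongr
  · intro x hx0 hx1
    have hx : |t + a * x - t| ≤ 1 * a := by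
      rw [add_sub_cancel_left, abs_of_nonneg (by positivity)]
      nlinarith
    have h1 := horiz hS F P hsep hσ zero_le_one hK hx
    have e : (t : ℂ) + a * x = ((t + a * x : ℝ) : ℂ) := by push_cast; ring
    rw [e, zf_eq F (hmem _ (hx.trans (by gcongr))) (hne _), zf_eq F (hmem t htt) (hne t)]
    set H1 := HH U h (((t + a * x : ℝ) : ℂ) - (A * a : ℝ) * I)
    set H0 := HH U h ((t : ℂ) - (A * a : ℝ) * I)
    have e2 : exp H1 - exp H0 = (exp (H1 - H0) - 1) * exp H0 := by
      rw [sub_mul, ← Complex.exp_add, sub_add_cancel, one_mul]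
    rw [e2, norm_mul]
    refine mul_le_mul_of_nonneg_right ((norm_exp_sub_one _).trans ?_) (norm_nonneg _)
    have h2 : 7 * (1 : ℝ) ^ 2 / A ≤ (4 * C + 10) / A := by
      gcongr
      linarith
    gcongr
    linarith

end Pool.Agent.MP_ca0a54_nt.H15
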